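import Pool.Agent.W974.QC.Main

/-!
Deterministic and entanglement-assisted quantum communication complexity are not polynomially
related for the functions `F(x, y) = f(x ∧ y)`.

`detCC`, `Reach`, `QComputes`, `qStar`, `andFn`, `lead` and `leadParity` are defined in
`Pool.Agent.W974.QC.Defs`.
-/

set_option autoImplicit false

open Filter
open scoped BigOperators

namespace Pool.Agent.Results.MP_799357_lc.Disproof

open Pool.Agent.W974.QC

theorem upper (n : ℕ) :
    qStar (andFn (leadParity (n := n))) ≤ (Nat.log 2 (Nat.log 2 (2 * n + 1)) + 3) ^ 2 := by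
  set L := Nat.log 2 (Nat.log 2 (2 * n + 1)) with hL
  have h1 : Nat.log 2 (2 * n + 1) < 2 ^ (L + 1) := Nat.lt_pow_succ_log_self (by norm_num) _
  have h2 : 2 * n + 1 < 2 ^ (Nat.log 2 (2 * n + 1) + 1) := Nat.lt_pow_succ_log_self (by norm_num) _
  have h3 : 2 ^ (Nat.log 2 (2 * n + 1) + 1) ≤ 2 ^ (2 ^ (L + 1)) :=
    Nat.pow_le_pow_right (by norm_num) h1
  have h4 : 3 * (L + 1) ≤ 2 ^ (L + 3) := by
    have : L < 2 ^ L := Nat.lt_two_pow_self
    rw [pow_add]
    omega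
  refine (qStar_le n (L + 1) (L + 3) (lt_of_lt_of_le h2 h3) h4).trans ?_
  nlinarith

theorem lower (n : ℕ) (hn : 2 ≤ n) :
    Real.logb 2 n - 2 ≤ (detCC (andFn (leadParity (n := n))) : ℝ) := by
  have h1 := detCC_ge n
  have h2 : (n : ℝ) / 4 ≤ 2 ^ detCC (andFn (leadParity (n := n))) := by
    have h3 : ((n / 2 : ℕ) : ℝ) ≤ 2 ^ detCC (andFn (leadParity (n := n))) := by exact_mod_cast h1
    have h4 : n ≤ 4 * (n / 2) := by omega
    have h5 : (n : ℝ) ≤ 4 * ((n / 2 : ℕ) : ℝ) := by exact_mod_cast h4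
    linarith
  have hn0 : (0 : ℝ) < n := by exact_mod_cast (by omega : 0 < n)
  have h6 := Real.logb_le_logb_of_le (b := 2) (by norm_num) (by positivity) h2
  rw [Real.logb_pow, Real.logb_self_eq_one (by norm_num), mul_one,
    Real.logb_div hn0.ne' (by norm_num)] at h6
  have h7 : Real.logb 2 4 = 2 := by
    rw [show (4 : ℝ) = 2 ^ (2 : ℕ) by norm_num, Real.logb_pow, Real.logb_self_eq_one (by norm_num)]
    norm_num
  rw [h7] at h6
  exact h6

lemma poly_bound (P : Polynomial ℝ) :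
    ∃ K : ℝ, 0 ≤ K ∧ ∀ q : ℕ, P.eval (q : ℝ) ≤ K * ((q : ℝ) + 1) ^ P.natDegree := by
  refine ⟨∑ i ∈ Finset.range (P.natDegree + 1), |P.coeff i|,
    Finset.sum_nonneg (fun i _ => abs_nonneg _), ?_⟩
  intro q
  rw [Polynomial.eval_eq_sum_range, Finset.sum_mul]
  apply Finset.sum_le_sum
  intro i hi
  rw [Finset.mem_range] at hi
  have hq : (0 : ℝ) ≤ q := Nat.cast_nonneg q
  have h1 : (q : ℝ) ^ i ≤ ((q : ℝ) + 1) ^ P.natDegree := by
    calc (q : ℝ) ^ i ≤ ((q : ℝ) + 1) ^ i := by gcongr; linarith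
      _ ≤ ((q : ℝ) + 1) ^ P.natDegree := pow_le_pow_right₀ (by linarith) (by omega)
  calc P.coeff i * (q : ℝ) ^ i ≤ |P.coeff i| * (q : ℝ) ^ i := by
        gcongr
        exact le_abs_self _
    _ ≤ |P.coeff i| * ((q : ℝ) + 1) ^ P.natDegree := by gcongr

lemma growth (K : ℝ) (m : ℕ) (hK : 0 ≤ K) :
    ∀ᶠ L : ℕ in atTop, K * (((L : ℝ) + 3) ^ 2 + 1) ^ m + 4 < 2 ^ L := by
  have h1 := tendsto_pow_const_div_const_pow_of_one_lt (2 * m) (r := (2 : ℝ)) (by norm_num)
  have h2 := h1.comp (tendsto_add_atTop_nat 4)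
  have h3 : ∀ᶠ L : ℕ in atTop, (((L + 4 : ℕ) : ℝ) ^ (2 * m) / 2 ^ (L + 4)) < 1 / (32 * (K + 1)) :=
    h2.eventually (eventually_lt_nhds (by positivity))
  filter_upwards [h3, eventually_ge_atTop 4] with L hL hL4
  rw [div_lt_div_iff₀ (by positivity) (by positivity)] at hL
  have h4 : (((L : ℝ) + 3) ^ 2 + 1) ^ m ≤ ((L + 4 : ℕ) : ℝ) ^ (2 * m) := by
    rw [pow_mul]
    push_cast
    have hL0 : (0 : ℝ) ≤ L := Nat.cast_nonneg L
    gcongr
    nlinarith
  have h5 : (0 : ℝ) ≤ ((L + 4 : ℕ) : ℝ) ^ (2 * m) := by positivity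
  have h6 : (2 : ℝ) ^ (L + 4) = 16 * 2 ^ L := by rw [pow_add]; ring
  rw [h6] at hL
  have h7 : (16 : ℝ) ≤ 2 ^ L := by
    calc (16 : ℝ) = 2 ^ 4 := by norm_num
      _ ≤ 2 ^ L := pow_le_pow_right₀ (by norm_num) hL4
  have h8 : K * (((L : ℝ) + 3) ^ 2 + 1) ^ m ≤ K * ((L + 4 : ℕ) : ℝ) ^ (2 * m) := by gcongr
  nlinarith

/-- **Deterministic and quantum communication are not polynomially related for AND-composed
functions.** For `f_n(z) = ` parity of the number of leading ones of `z ∈ {0,1}^n`, the function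
`F_n(x, y) = f_n(x ∧ y)` has `D(F_n) ≥ log₂ n - 2` and
`Q*_{1/3}(F_n) ≤ (⌊log₂ ⌊log₂ (2 n + 1)⌋⌋ + 3)²`; hence for every real polynomial `P`,
`D(F_n) > P(Q*_{1/3}(F_n))` for all large `n`. -/
theorem result :
    (∀ n : ℕ, 2 ≤ n →
      Real.logb 2 n - 2 ≤ (detCC (andFn (leadParity (n := n))) : ℝ)) ∧
    (∀ n : ℕ,
      qStar (andFn (leadParity (n := n))) ≤ (Nat.log 2 (Nat.log 2 (2 * n + 1)) + 3) ^ 2) ∧
    (∀ P : Polynomial ℝ, ∀ᶠ n : ℕ in atTop,
      P.eval (qStar (andFn (leadParity (n := n))) : ℝ) <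
        (detCC (andFn (leadParity (n := n))) : ℝ)) := by
  refine ⟨lower, upper, ?_⟩
  intro P
  obtain ⟨K, hK, hP⟩ := poly_bound P
  have hg := growth K P.natDegree hK
  have ht : Tendsto (fun n : ℕ => Nat.log 2 (Nat.log 2 (2 * n + 1))) atTop atTop := by
    have h1 : Tendsto (fun n : ℕ => Nat.log 2 n) atTop atTop := by
      refine tendsto_atTop_atTop.2 (fun b => ⟨2 ^ b, fun a ha => ?_⟩)
      exact (Nat.le_log_iff_pow_le (by norm_num) (by
        have : 0 < 2 ^ b := by positivity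
        omega)).2 ha
    have h2 : Tendsto (fun n : ℕ => 2 * n + 1) atTop atTop :=
      tendsto_atTop_mono (fun n => by simp only [id]; omega) tendsto_id
    exact h1.comp (h1.comp h2)
  filter_upwards [ht.eventually hg, eventually_ge_atTop 2] with n hn hn2
  set L := Nat.log 2 (Nat.log 2 (2 * n + 1)) with hL
  have h1 := hP (qStar (andFn (leadParity (n := n))))
  have h2 : (qStar (andFn (leadParity (n := n))) : ℝ) ≤ ((L : ℝ) + 3) ^ 2 := by
    have := upper n
    exact_mod_cast this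
  have h3 : K * ((qStar (andFn (leadParity (n := n))) : ℝ) + 1) ^ P.natDegree ≤
      K * (((L : ℝ) + 3) ^ 2 + 1) ^ P.natDegree := by gcongr
  have h4 := lower n hn2
  have h5 : (2 : ℝ) ^ L ≤ Real.logb 2 n + 2 := by
    have h6 : 2 ^ L ≤ Nat.log 2 (2 * n + 1) := Nat.pow_log_le_self 2 (by
      have : 0 < Nat.log 2 (2 * n + 1) := Nat.log_pos (by norm_num) (by omega)
      omega)
    have h7 : 2 ^ (Nat.log 2 (2 * n + 1)) ≤ 2 * n + 1 := Nat.pow_log_le_self 2 (by omega)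
    have h8 : 2 ^ (2 ^ L) ≤ 4 * n := by
      have := Nat.pow_le_pow_right (n := 2) (by norm_num) h6
      omega
    have hn0 : (0 : ℝ) < n := by exact_mod_cast (by omega : 0 < n)
    have h9 : (2 : ℝ) ^ (2 ^ L) ≤ 4 * n := by exact_mod_cast h8
    have h10 := Real.logb_le_logb_of_le (b := 2) (by norm_num) (by positivity) h9
    rw [Real.logb_pow, Real.logb_self_eq_one (by norm_num), mul_one,
      Real.logb_mul (by norm_num) hn0.ne'] at h10
    have h11 : Real.logb 2 4 = 2 := by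
      rw [show (4 : ℝ) = 2 ^ (2 : ℕ) by norm_num, Real.logb_pow,
        Real.logb_self_eq_one (by norm_num)]
      norm_num
    rw [h11] at h10
    push_cast at h10
    linarith
  linarith

end Pool.Agent.Results.MP_799357_lc.Disproof
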